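import Pool.Agent.H97.LAY.Stmts5

/-!
# Board `lay` (MP_609328_co): row XI2 (helper1)
-/

set_option autoImplicit false

namespace Pool.LAY

open Finset

theorem XI2 (h1 : QAPStmt) (h2 : IMHStmt) (h3 : QNNStmt) : XI2Stmt := by
  intro cs bs b pre tl v hb hcs hbs hM hP hw
  set ls := cs ++ 1 :: b :: bs with hls
  obtain ⟨hNN, hsum, hmax⟩ := hM
  have hpre : NN pre := fun x hx => hNN x (List.mem_append_left _ hx)
  have hv : 0 ≤ v := hNN v (List.mem_append_right _ List.mem_cons_self)
  have htl : NN tl := fun x hx => hNN x (List.mem_append_right _ (List.mem_cons_of_mem _ hx))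
  have spre : 0 ≤ pre.sum := List.sum_nonneg hpre
  have stl : 0 ≤ tl.sum := List.sum_nonneg htl
  have hs : pre.sum + (v + tl.sum) = 1 := by
    rw [← hsum, List.sum_append, List.sum_cons]
  by_contra hno
  push Not at hno
  -- the new list
  have hNN' : NN (pre ++ (v / 2) :: tl) := by
    intro x hx
    rcases List.mem_append.1 hx with hx | hx
    · exact hpre x hx
    · rcases List.mem_cons.1 hx with rfl | hx
      · linarith
      · exact htl x hx
  have hsum' : (pre ++ (v / 2) :: tl).sum = 1 - v / 2 := by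
    rw [List.sum_append, List.sum_cons]; linarith
  have hls1 : ls ≠ [] := by rw [hls]; simp
  have hls2 : ∀ l ∈ ls, 1 ≤ l := by
    intro l hl
    rw [hls] at hl
    rcases List.mem_append.1 hl with hl | hl
    · exact hcs l hl
    · rcases List.mem_cons.1 hl with rfl | hl
      · exact le_rfl
      · rcases List.mem_cons.1 hl with rfl | hl
        · exact hb
        · exact hbs l hl
  have e1 := h2 ls (pre ++ v :: tl) (pre ++ (v / 2) :: tl) hls1 hls2 ⟨hNN, hsum, hmax⟩ hNN'
  rw [hsum'] at e1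
  -- lower bound
  have hv2 : NN ((v / 2) :: tl) := fun x hx => hNN' x (List.mem_append_right _ hx)
  have e2 : Q cs pre * Q (1 :: b :: bs) ((v / 2) :: tl) ≤ Q ls (pre ++ (v / 2) :: tl) := by
    rw [h1 ls pre ((v / 2) :: tl)]
    have hm : cs.length ∈ range (ls.length + 1) := by
      rw [mem_range, hls, List.length_append]; omega
    refine le_trans (le_of_eq ?_) (single_le_sum (f := fun i => Q (ls.take i) pre *
      Q (ls.drop i) ((v / 2) :: tl)) (fun i _ => mul_nonneg (h3 _ _ hpre).1 (h3 _ _ hv2).1) hm)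
    show _ = Q (ls.take cs.length) pre * Q (ls.drop cs.length) ((v / 2) :: tl)
    rw [hls, List.take_left, List.drop_left]
  have e3 : Q (1 :: b :: bs) (v :: tl) / 2 ≤ Q (1 :: b :: bs) ((v / 2) :: tl) := by
    have h4 := (h3 (1 :: b :: bs) tl htl).1
    have h5 : Q (1 :: b :: bs) (v :: tl) = v ^ 1 * Q (b :: bs) tl + Q (1 :: b :: bs) tl := rfl
    have h6 : Q (1 :: b :: bs) ((v / 2) :: tl) =
      (v / 2) ^ 1 * Q (b :: bs) tl + Q (1 :: b :: bs) tl := rfl
    rw [h5, h6]
    linarith
  have e4 := mul_le_mul_of_nonneg_left e3 (h3 cs pre hpre).1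
  set P := Q ls (pre ++ v :: tl) with hPdef
  have e5 : 3 / 8 * P ≤ P * (1 - v / 2) ^ ls.sum := by
    have : Q cs pre * (Q (1 :: b :: bs) (v :: tl) / 2) =
      (Q cs pre * Q (1 :: b :: bs) (v :: tl)) / 2 := by ring
    rw [this] at e4
    linarith
  have e6 : 3 / 8 ≤ (1 - v / 2) ^ ls.sum := by
    by_contra hh
    push Not at hh
    have := mul_lt_mul_of_pos_left hh hP
    linarith
  have e7 : (1 - v / 2) ^ ls.sum ≤ Real.exp (-1) := by
    have a1 : 1 - v / 2 ≤ Real.exp (-(v / 2)) := by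
      have := Real.add_one_le_exp (-(v / 2)); linarith
    have a2 : 0 ≤ 1 - v / 2 := by linarith
    calc (1 - v / 2) ^ ls.sum ≤ Real.exp (-(v / 2)) ^ ls.sum := pow_le_pow_left₀ a2 a1 _
      _ = Real.exp ((ls.sum : ℝ) * (-(v / 2))) := by rw [← Real.exp_nat_mul]
      _ ≤ Real.exp (-1) := Real.exp_le_exp.2 (by linarith)
  have e8 : Real.exp (-1) < 3 / 8 := by
    rw [Real.exp_neg, inv_lt_comm₀ (Real.exp_pos 1) (by norm_num)]
    have := Real.exp_one_gt_d9
    norm_num at this ⊢
    linarith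
  linarith

end Pool.LAY
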